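import Pool.Agent.H484.AL.Stm

/-! M2: variance at level `t`. -/

set_option autoImplicit false

namespace Pool.Agent.H484.AL

open Finset
open scoped Classical

theorem m2_sum_sq {ι : Type} [Fintype ι] (f : ι → ℝ) (A n : ℝ) (hn : (Fintype.card ι : ℝ) = n) :
    ∑ b, (f b - A) ^ 2 = ∑ b, f b ^ 2 - 2 * A * ∑ b, f b + n * A ^ 2 := by
  have h : ∀ b, (f b - A) ^ 2 = f b ^ 2 - 2 * A * f b + A ^ 2 := fun b => by ring
  simp only [h]
  rw [sum_add_distrib, sum_sub_distrib, ← mul_sum, sum_const, card_univ, nsmul_eq_mul, hn]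

theorem t_M2 (hMOM1 : S_MOM1) (hMOM2 : S_MOM2) : S_M2 := by
  intro e B g M a0 J α hR t ht
  have h1 := (hMOM1 e B g M a0 J α hR t ht).2
  have h2 := hMOM2 e B g M a0 J α hR t ht
  have hcard : (Fintype.card (Fin e → Fin M) : ℝ) = (M : ℝ) ^ e := by
    rw [Fintype.card_fun, Fintype.card_fin, Fintype.card_fin]
    push_cast
    rfl
  rw [m2_sum_sq _ (AA e g M B J α t) ((M : ℝ) ^ e) hcard]
  have hB : (1 : ℝ) ≤ (B : ℝ) ^ J := by
    have hB1 : (1 : ℝ) ≤ (B : ℝ) := by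
      have := hR.hB
      exact_mod_cast (by omega : 1 ≤ B)
    exact one_le_pow₀ hB1
  have hδ0 : 0 < 1 / (B : ℝ) ^ J := by positivity
  have hδ1 : 1 / (B : ℝ) ^ J ≤ 1 := by
    rw [div_le_one (by linarith)]
    exact hB
  have hA : 0 ≤ AA e g M B J α t := by
    unfold AA
    exact sum_nonneg fun j _ => by positivity
  have hn : 0 ≤ (M : ℝ) ^ e := by positivity
  have hdiv : 5 * (AA e g M B J α t) ^ 2 / (B : ℝ) ^ J =
      5 * (1 / (B : ℝ) ^ J) * (AA e g M B J α t) ^ 2 := by ring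
  rw [hdiv]
  generalize AA e g M B J α t = A at *
  generalize 1 / (B : ℝ) ^ J = δ at *
  generalize 4 * 3 ^ (e + 1) * (2 * (J : ℝ)) ^ e / (B : ℝ) ^ t = E at *
  generalize (M : ℝ) ^ e = n at *
  have h3 : 2 * A * ((1 - δ) * A * n) ≤
      2 * A * ∑ b : Fin e → Fin M, Mt e g M a0 B J α (fun i => (b i : ℕ)) t :=
    mul_le_mul_of_nonneg_left h1 (by positivity)
  have h4 : 0 ≤ (δ - δ ^ 2) * A ^ 2 * n := by
    have : 0 ≤ δ - δ ^ 2 := by nlinarith
    positivity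
  have h5 : 0 ≤ (1 - δ) * A * n := by
    have : 0 ≤ 1 - δ := by linarith
    positivity
  nlinarith [h2, h3, h4, h5]

end Pool.Agent.H484.AL
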