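import Pool.Agent.H484.AL.Stm

/-! PSUM: splitting the tuples according to the common factor. -/

set_option autoImplicit false

namespace Pool.Agent.H484.AL

open Finset
open scoped Classical

theorem t_PSUM : S_PSUM := by
  intro d N P hN
  have hf : ∀ a ∈ univ.filter (fun a : Fin d → Fin N => P (fun i => (a i : ℕ))),
      Nat.gcd (univ.gcd (fun i => (a i : ℕ))) N ∈ N.divisors := by
    intro a _
    rw [Nat.mem_divisors]
    exact ⟨Nat.gcd_dvd_right _ _, by omega⟩
  rw [card_eq_sum_card_fiberwise hf]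
  refine sum_le_sum fun h hh => ?_
  have hdvd : h ∣ N := Nat.dvd_of_mem_divisors hh
  have hpos : 0 < h := Nat.pos_of_dvd_of_pos hdvd (by omega)
  have hNh : 0 < N / h := Nat.div_pos (Nat.le_of_dvd (by omega) hdvd) hpos
  have key : ∀ a : Fin d → Fin N, Nat.gcd (univ.gcd (fun i => (a i : ℕ))) N = h →
      ∀ i, h ∣ (a i : ℕ) ∧ (a i : ℕ) / h % (N / h) = (a i : ℕ) / h := by
    intro a ha i
    have h1 : h ∣ (a i : ℕ) := by
      rw [← ha]
      exact (Nat.gcd_dvd_left _ _).trans (Finset.gcd_dvd (mem_univ i))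
    refine ⟨h1, Nat.mod_eq_of_lt ?_⟩
    exact Nat.div_lt_div_of_lt_of_dvd hdvd (a i).2
  refine card_le_card_of_injOn
    (fun a i => ⟨(a i : ℕ) / h % (N / h), Nat.mod_lt _ hNh⟩) ?_ ?_
  · intro a ha
    rw [mem_coe, mem_filter, mem_filter] at ha
    obtain ⟨⟨-, hP⟩, hg⟩ := ha
    have hk := key a hg
    rw [mem_coe, mem_filter]
    refine ⟨mem_univ _, ?_, ?_⟩
    · show Nat.Coprime (Finset.univ.gcd fun i => (a i : ℕ) / h % (N / h)) (N / h)
      rw [Nat.coprime_iff_gcd_eq_one]
      set c := Nat.gcd (Finset.univ.gcd fun i => (a i : ℕ) / h % (N / h)) (N / h) with hc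
      have hc1 : ∀ i, h * c ∣ (a i : ℕ) := by
        intro i
        have h1 : c ∣ (a i : ℕ) / h % (N / h) :=
          (Nat.gcd_dvd_left _ _).trans (Finset.gcd_dvd (mem_univ i))
        rw [(hk i).2] at h1
        have h2 := Nat.mul_dvd_mul_left h h1
        rwa [Nat.mul_div_cancel' (hk i).1] at h2
      have hc2 : h * c ∣ N := by
        have h1 : c ∣ N / h := Nat.gcd_dvd_right _ _
        have h2 := Nat.mul_dvd_mul_left h h1
        rwa [Nat.mul_div_cancel' hdvd] at h2
      have hc3 : h * c ∣ h := by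
        have h3 : h * c ∣ Nat.gcd (univ.gcd (fun i => (a i : ℕ))) N :=
          Nat.dvd_gcd (Finset.dvd_gcd fun i _ => hc1 i) hc2
        rwa [hg] at h3
      have h4 : h * c ∣ h * 1 := by rwa [mul_one]
      exact Nat.dvd_one.mp (Nat.dvd_of_mul_dvd_mul_left hpos h4)
    · have h5 : (fun i => h * ((a i : ℕ) / h % (N / h))) = fun i => (a i : ℕ) := by
        funext i
        rw [(hk i).2, Nat.mul_div_cancel' (hk i).1]
      show P (fun i => h * ((a i : ℕ) / h % (N / h)))
      rw [h5]
      exact hP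
  · intro a ha b hb hab
    rw [mem_coe, mem_filter] at ha hb
    have hka := key a ha.2
    have hkb := key b hb.2
    funext i
    have h6 := congrArg (fun x : Fin d → Fin (N / h) => ((x i : Fin (N / h)) : ℕ)) hab
    have h7 : (a i : ℕ) / h % (N / h) = (b i : ℕ) / h % (N / h) := h6
    rw [(hka i).2, (hkb i).2] at h7
    apply Fin.ext
    rw [← Nat.mul_div_cancel' (hka i).1, ← Nat.mul_div_cancel' (hkb i).1, h7]

end Pool.Agent.H484.AL
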