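import Pool.Agent.H308.AL.Stm

set_option autoImplicit false

open Filter Topology

namespace Pool.Agent.H200.AL

open Pool.Agent.H308.AL

theorem red2 : S_RED2 := by
  intro H _ _ _ S T J K hJ hS hS' hK hq
  have hJ1 : ∀ A : H →L[ℂ] H, star J * (J * A) = A := by
    intro A
    rw [← mul_assoc, hJ, one_mul]
  have hT : SOT T (star J * (K * J)) := by
    intro x
    have h1 : Tendsto (fun n => (star J) (S n (J x))) atTop (𝓝 ((star J) (K (J x)))) :=
      ((star J).continuous.tendsto _).comp (hK (J x))
    have h2 : ∀ n, (star J) (S n (J x)) = T n x := by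
      intro n
      have h3 : star J * (S n * J) = T n := by rw [hS n, hJ1]
      have h4 : (star J * (S n * J)) x = T n x := by rw [h3]
      exact h4
    exact h1.congr h2
  have hKJ : K * J = J * (star J * (K * J)) := by
    ext x
    have h1 : Tendsto (fun n => J (T n x)) atTop (𝓝 (J ((star J * (K * J)) x))) :=
      (J.continuous.tendsto _).comp (hT x)
    have h2 : ∀ n, S n (J x) = J (T n x) := by
      intro n
      have h4 : (S n * J) x = (J * T n) x := by rw [hS n]
      exact h4
    have h3 : Tendsto (fun n => S n (J x)) atTop (𝓝 (J ((star J * (K * J)) x))) :=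
      h1.congr fun n => (h2 n).symm
    exact tendsto_nhds_unique (hK (J x)) h3
  obtain ⟨L, hL⟩ : ∃ L, L = star J * (K * J) := ⟨_, rfl⟩
  rw [← hL] at hT hKJ
  have hKJ' : star K * J = J * star L := by
    ext x
    refine ext_inner_right ℂ fun y => ?_
    have e1 : inner ℂ ((star K * J) x) y = inner ℂ (J x) (K y) :=
      ContinuousLinearMap.adjoint_inner_left K y (J x)
    have e2 : inner ℂ ((J * star L) x) y = inner ℂ x (L ((star J) y)) := by
      have a1 : inner ℂ ((J * star L) x) y = inner ℂ ((star L) x) ((star J) y) :=
        (ContinuousLinearMap.adjoint_inner_right J ((star L) x) y).symm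
      rw [a1]
      exact ContinuousLinearMap.adjoint_inner_left L ((star J) y) x
    rw [e1, e2]
    have t1 : Tendsto (fun n => inner ℂ (J x) (S n y)) atTop (𝓝 (inner ℂ (J x) (K y))) :=
      tendsto_const_nhds.inner (hK y)
    have t2 : Tendsto (fun n => inner ℂ x (T n ((star J) y))) atTop
        (𝓝 (inner ℂ x (L ((star J) y)))) :=
      tendsto_const_nhds.inner (hT ((star J) y))
    have t3 : ∀ n, inner ℂ x (T n ((star J) y)) = inner ℂ (J x) (S n y) := by
      intro n
      have b1 : inner ℂ (J x) (S n y) = inner ℂ ((star (S n)) (J x)) y :=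
        (ContinuousLinearMap.adjoint_inner_left (S n) y (J x)).symm
      have b2 : (star (S n)) (J x) = J ((star (T n)) x) := by
        have : (star (S n) * J) x = (J * star (T n)) x := by rw [hS' n]
        exact this
      have b3 : inner ℂ (J ((star (T n)) x)) y = inner ℂ ((star (T n)) x) ((star J) y) :=
        (ContinuousLinearMap.adjoint_inner_right J ((star (T n)) x) y).symm
      have b4 : inner ℂ ((star (T n)) x) ((star J) y) = inner ℂ x (T n ((star J) y)) :=
        ContinuousLinearMap.adjoint_inner_left (T n) ((star J) y) x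
      rw [b1, b2, b3, b4]
    exact tendsto_nhds_unique t1 (t2.congr t3)
  refine ⟨L, hT, ?_⟩
  have hinj : ∀ A B : H →L[ℂ] H, J * A = J * B → A = B := by
    intro A B h
    rw [← hJ1 A, h, hJ1]
  unfold QuasiNormal at hq ⊢
  apply hinj
  calc J * (L * (star L * L)) = (J * L) * (star L * L) := by rw [mul_assoc]
    _ = K * (J * star L) * L := by rw [← hKJ]; simp only [mul_assoc]
    _ = K * star K * (J * L) := by rw [← hKJ']; simp only [mul_assoc]
    _ = K * (star K * K) * J := by rw [← hKJ]; simp only [mul_assoc]
    _ = star K * K * (K * J) := by rw [hq]; simp only [mul_assoc]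
    _ = star K * K * (J * L) := by rw [hKJ]
    _ = star K * (K * J) * L := by simp only [mul_assoc]
    _ = star K * (J * L) * L := by rw [hKJ]
    _ = (star K * J) * L * L := by simp only [mul_assoc]
    _ = J * (star L * L * L) := by rw [hKJ']; simp only [mul_assoc]

end Pool.Agent.H200.AL
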